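import Pool.Agent.W5h57.Bur.Hyper

/-!
# The words `u_j` and the free Burnside groups
-/

set_option autoImplicit false

open scoped commutatorElement

namespace Pool.Agent.W5h57.Bur

universe u

/-- `n ∈ 𝓛`: every group satisfying `x ^ n = 1` is locally finite. -/
def InL (n : ℕ) : Prop := ∀ (G : Type u) [Group G], (∀ x : G, x ^ n = 1) →
  ∀ S : Set G, S.Finite → Finite (Subgroup.closure S)

/-- The free group on `ι` modulo all `n`-th powers. -/
abbrev Bf (ι : Type) (n : ℕ) : Type :=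
  FreeGroup ι ⧸ Subgroup.normalClosure (Set.range fun w : FreeGroup ι => w ^ n)

theorem bf_pow (ι : Type) (n : ℕ) (x : Bf ι n) : x ^ n = 1 := by
  obtain ⟨w, rfl⟩ := QuotientGroup.mk_surjective x
  rw [← QuotientGroup.mk_pow, QuotientGroup.eq_one_iff]
  exact Subgroup.subset_normalClosure ⟨w, rfl⟩

/-- The generators of the free Burnside group. -/
def gf (ι : Type) (n : ℕ) (i : ι) : Bf ι n := QuotientGroup.mk (FreeGroup.of i)

theorem gf_closure (ι : Type) (n : ℕ) : Subgroup.closure (Set.range (gf ι n)) = ⊤ := by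
  have h1 : Set.range (gf ι n) = (QuotientGroup.mk' (Subgroup.normalClosure
      (Set.range fun w : FreeGroup ι => w ^ n))) '' Set.range FreeGroup.of := by
    rw [← Set.range_comp]
    rfl
  rw [h1, ← MonoidHom.map_closure, FreeGroup.closure_range_of]
  exact Subgroup.map_top_of_surjective _ (QuotientGroup.mk'_surjective _)

/-- The homomorphisms from the free Burnside group. -/
theorem exists_lift {ι : Type} {n : ℕ} {G : Type u} [Group G] (hG : ∀ x : G, x ^ n = 1)
    (v : ι → G) : ∃ f : Bf ι n →* G, ∀ i, f (gf ι n i) = v i := by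
  refine ⟨QuotientGroup.lift _ (FreeGroup.lift v) ?_, fun i => ?_⟩
  · have h1 : Subgroup.normalClosure (Set.range fun w : FreeGroup ι => w ^ n) ≤
        (FreeGroup.lift v).ker := by
      apply Subgroup.normalClosure_le_normal
      rintro _ ⟨w, rfl⟩
      rw [SetLike.mem_coe, MonoidHom.mem_ker, map_pow, hG]
    exact fun w hw => h1 hw
  · change QuotientGroup.lift _ (FreeGroup.lift v) _ (QuotientGroup.mk (FreeGroup.of i)) = v i
    rw [QuotientGroup.lift_mk, FreeGroup.lift_apply_of]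

/-- The image of a sequence with values in `Fin d`. -/
theorem uw_lift {d n : ℕ} {G : Type u} [Group G] (hG : ∀ x : G, x ^ n = 1) (hd : 1 ≤ d)
    (h : ∃ y : ℕ → Bf (Fin d) n, (∀ i : Fin d, y i = gf (Fin d) n i) ∧ uw y (d - 1) = 1)
    (x : ℕ → G) : uw x (d - 1) = 1 := by
  obtain ⟨y, hy, hy1⟩ := h
  obtain ⟨f, hf⟩ := exists_lift hG (fun i : Fin d => x i)
  have h1 := uw_map f y (d - 1)
  rw [hy1, map_one] at h1
  rw [h1]
  refine uw_congr fun i hi => ?_
  have h2 := hf ⟨i, by omega⟩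
  have h3 := hy ⟨i, by omega⟩
  simp only at h2 h3
  rw [h3, h2]

/-- The sequence of the generators of `B_{d,n}`. -/
def gs (d n : ℕ) (i : ℕ) : Bf (Fin d) n := if h : i < d then gf (Fin d) n ⟨i, h⟩ else 1

theorem gs_fin (d n : ℕ) (i : Fin d) : gs d n i = gf (Fin d) n i := by
  simp [gs]

theorem periodic_of_exp {n : ℕ} (hn : 1 ≤ n) {G : Type u} [Group G] (hG : ∀ x : G, x ^ n = 1)
    (g : G) : IsOfFinOrder g := isOfFinOrder_iff_pow_eq_one.2 ⟨n, by omega, hG g⟩

/-- If the law `u_(d-1) = 1` holds in `B_{d,n}`, all groups of exponent `n` are hyperabelian. -/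
theorem hyper_of_law {d n : ℕ} (hd : 1 ≤ d) (h : uw (gs d n) (d - 1) = 1) {G : Type u} [Group G]
    (hG : ∀ x : G, x ^ n = 1) : Hyperabelian G :=
  hyperabelian_of_stops fun x => ⟨d - 1, uw_lift hG hd ⟨gs d n, gs_fin d n, h⟩ x⟩

theorem inL_of_hyper {n : ℕ} (hn : 1 ≤ n)
    (h : ∀ (G : Type u) [Group G], (∀ x : G, x ^ n = 1) → Hyperabelian G) : InL.{u} n :=
  fun G _ hG => lfin_of_hyperabelian (h G hG) (periodic_of_exp hn hG)


theorem law_of_hyper {n : ℕ}
    (h : ∀ (G : Type u) [Group G], (∀ x : G, x ^ n = 1) → Hyperabelian G) :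
    ∃ d, 1 ≤ d ∧ uw (gs d n) (d - 1) = 1 := by
  have h1 := h (ULift.{u} (Bf ℕ n)) (fun x => by
    apply MulEquiv.ulift.injective
    rw [map_pow, map_one]
    exact bf_pow ℕ n _)
  obtain ⟨j, hj⟩ := stops_of_hyperabelian h1 (fun i => ULift.up (gf ℕ n i))
  refine ⟨j + 1, by omega, ?_⟩
  have h2 := uw_map (MulEquiv.ulift (α := Bf ℕ n)).toMonoidHom (fun i => ULift.up (gf ℕ n i)) j
  rw [hj, map_one] at h2
  obtain ⟨f, hf⟩ := exists_lift (bf_pow (Fin (j + 1)) n) (gs (j + 1) n)
  have h3 := congrArg f h2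
  rw [map_one, uw_map] at h3
  rw [Nat.add_sub_cancel]
  rw [h3]
  refine (uw_congr fun i _ => ?_)
  exact (hf i).symm

/-- The class of `P` is at most `2 ^ d - 2`, or the class of the normal closure of `a` is at most
`2 ^ (d - 1) - 1`. -/
def SmallCl (d : ℕ) (P : Type u) [Group P] (a : P) : Prop :=
  (⊤ : Subgroup P).lowerCentralSeries (2 ^ d - 2) = ⊥ ∨
    (Subgroup.normalClosure {a}).lowerCentralSeries (2 ^ (d - 1) - 1) = ⊥

theorem uw_of_small {P : Type u} [Group P] {d : ℕ} (hd : 1 ≤ d) (y : ℕ → P)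
    (h : SmallCl d P (y 0)) : uw y (d - 1) = 1 := by
  rcases h with h0 | h0
  · have h2 := uw_lcs y (d - 1)
    rw [Nat.sub_add_cancel hd, h0] at h2
    exact Subgroup.mem_bot.1 h2
  · have h2 := uw_ncl y (d - 1)
    rw [h0] at h2
    exact Subgroup.mem_bot.1 h2

theorem stops_of_small {G : Type u} [Group G] {x : ℕ → G} {d : ℕ} (hd : 1 ≤ d)
    (h : ∀ h0 : x 0 ∈ Subgroup.closure (x '' Set.Iio d),
      SmallCl d (Subgroup.closure (x '' Set.Iio d)) ⟨x 0, h0⟩) : uw x (d - 1) = 1 := by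
  have hx : ∀ i, i < d → x i ∈ Subgroup.closure (x '' Set.Iio d) := fun i hi =>
    Subgroup.subset_closure ⟨i, hi, rfl⟩
  classical
  let y : ℕ → Subgroup.closure (x '' Set.Iio d) := fun i =>
    if hi : i < d then ⟨x i, hx i hi⟩ else 1
  have hy : ∀ i, i < d → (y i : G) = x i := fun i hi => by simp [y, hi]
  have hy0 : y 0 = ⟨x 0, hx 0 (by omega)⟩ := Subtype.ext (hy 0 (by omega))
  have h1 : uw y (d - 1) = 1 := uw_of_small hd y (by rw [hy0]; exact h _)
  have h2 := uw_map (Subgroup.subtype _) y (d - 1)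
  rw [h1, map_one] at h2
  rw [h2]
  exact (uw_congr fun i hi => (hy i (by omega)).symm)

/-- Small class of all finite `d`-generator groups of exponent dividing `n`. -/
def ClassBound (d n : ℕ) : Prop :=
  ∀ (P : Type) [Group P] [Finite P], (∀ x : P, x ^ n = 1) → ∀ S : Finset P, S.card ≤ d →
    Subgroup.closure (S : Set P) = ⊤ → ∀ a ∈ S, SmallCl d P a

/-- the finite group generated by the sequence is transported to `Type` -/
theorem stops_of_bound {G : Type u} [Group G] {n d : ℕ} (hd : 1 ≤ d) (hb : ClassBound d n)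
    (hG : ∀ x : G, x ^ n = 1) (x : ℕ → G) (hf : Finite (Subgroup.closure (x '' Set.Iio d))) :
    uw x (d - 1) = 1 := by
  classical
  obtain ⟨H, hH⟩ : ∃ H, H = Subgroup.closure (x '' Set.Iio d) := ⟨_, rfl⟩
  rw [← hH] at hf
  obtain ⟨f, hff⟩ := exists_lift (n := n) hG (fun i : Fin d => x i)
  have hr : f.range = H := by
    rw [MonoidHom.range_eq_map, ← gf_closure, MonoidHom.map_closure, hH, ← Set.range_comp]
    congr 1
    ext g
    constructor
    · rintro ⟨i, rfl⟩
      exact ⟨i, i.2, (hff i).symm⟩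
    · rintro ⟨i, hi, rfl⟩
      exact ⟨⟨i, hi⟩, hff _⟩
  have hfin : Finite (Bf (Fin d) n ⧸ f.ker) := by
    have h1 : Finite f.range := by rw [hr]; exact hf
    exact Finite.of_equiv _ (QuotientGroup.quotientKerEquivRange f).symm.toEquiv
  have hexp : ∀ p : Bf (Fin d) n ⧸ f.ker, p ^ n = 1 := by
    intro p
    obtain ⟨w, rfl⟩ := QuotientGroup.mk_surjective p
    rw [← QuotientGroup.mk_pow, bf_pow]
    rfl
  have h0 := hb (Bf (Fin d) n ⧸ f.ker) hexp
    (Finset.univ.image fun i => QuotientGroup.mk' f.ker (gf (Fin d) n i))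
    (Finset.card_image_le.trans (by simp)) (by
    have h1 : ((Finset.univ.image fun i => QuotientGroup.mk' f.ker (gf (Fin d) n i) :
        Finset (Bf (Fin d) n ⧸ f.ker)) : Set (Bf (Fin d) n ⧸ f.ker)) =
        (QuotientGroup.mk' f.ker) '' Set.range (gf (Fin d) n) := by
      rw [Finset.coe_image, Finset.coe_univ, Set.image_univ, ← Set.range_comp]
      rfl
    rw [h1, ← MonoidHom.map_closure, gf_closure]
    exact Subgroup.map_top_of_surjective _ (QuotientGroup.mk'_surjective _))
    (QuotientGroup.mk' f.ker (gs d n 0)) (by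
      rw [Finset.mem_image]
      refine ⟨⟨0, by omega⟩, Finset.mem_univ _, ?_⟩
      simp [gs, show 0 < d by omega])
  have h1 : uw (fun i => QuotientGroup.mk' f.ker (gs d n i)) (d - 1) = 1 :=
    uw_of_small hd _ h0
  rw [← uw_map] at h1
  have h2 : uw (gs d n) (d - 1) ∈ f.ker := by
    rwa [QuotientGroup.mk'_apply, QuotientGroup.eq_one_iff] at h1
  rw [MonoidHom.mem_ker, uw_map] at h2
  rw [← h2]
  refine uw_congr fun i hi => ?_
  have h3 := gs_fin d n ⟨i, by omega⟩
  have h4 := hff ⟨i, by omega⟩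
  simp only at h3 h4
  rw [h3, h4]

theorem b_finite_of_inL {n : ℕ} (h : InL.{u} n) (d : ℕ) : Finite (Bf (Fin d) n) := by
  have h1 := h (ULift.{u} (Bf (Fin d) n)) (fun x => by
    apply MulEquiv.ulift.injective
    rw [map_pow, map_one]
    exact bf_pow _ n _) (Set.range fun i => ULift.up (gf (Fin d) n i)) (Set.finite_range _)
  have h2 : Subgroup.closure (Set.range fun i => (ULift.up (gf (Fin d) n i) :
      ULift.{u} (Bf (Fin d) n))) = ⊤ := by
    apply Subgroup.map_injective (f := (MulEquiv.ulift (α := Bf (Fin d) n)).toMonoidHom)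
      (MulEquiv.ulift (α := Bf (Fin d) n)).injective
    have h3 := MonoidHom.map_closure (MulEquiv.ulift (α := Bf (Fin d) n)).toMonoidHom
      (Set.range fun i => (ULift.up (gf (Fin d) n i) : ULift.{u} (Bf (Fin d) n)))
    have h4 : (MulEquiv.ulift (α := Bf (Fin d) n)).toMonoidHom ''
        (Set.range fun i => (ULift.up (gf (Fin d) n i) : ULift.{u} (Bf (Fin d) n))) =
        Set.range (gf (Fin d) n) := by
      rw [← Set.range_comp]
      rfl
    rw [h4, gf_closure] at h3
    refine h3.trans ?_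
    exact (Subgroup.map_top_of_surjective _ (MulEquiv.ulift (α := Bf (Fin d) n)).surjective).symm
  rw [h2] at h1
  exact Finite.of_equiv _ (Subgroup.topEquiv.toEquiv.trans Equiv.ulift)

theorem closure_finite_of_b {d n : ℕ} [Finite (Bf (Fin d) n)] {G : Type u} [Group G]
    (hG : ∀ x : G, x ^ n = 1) (x : ℕ → G) : Finite (Subgroup.closure (x '' Set.Iio d)) := by
  obtain ⟨f, hff⟩ := exists_lift (n := n) hG (fun i : Fin d => x i)
  have hr : f.range = Subgroup.closure (x '' Set.Iio d) := by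
    rw [MonoidHom.range_eq_map, ← gf_closure, MonoidHom.map_closure, ← Set.range_comp]
    congr 1
    ext g
    constructor
    · rintro ⟨i, rfl⟩
      exact ⟨i, i.2, (hff i).symm⟩
    · rintro ⟨i, hi, rfl⟩
      exact ⟨⟨i, hi⟩, hff _⟩
  rw [← hr]
  exact Finite.of_surjective _ f.rangeRestrict_surjective

/-- With the class bound, `d` generators decide. -/
theorem inL_iff_of_bound {d n : ℕ} (hd : 1 ≤ d) (hn : 1 ≤ n) (hb : ClassBound d n) :
    InL.{u} n ↔ Finite (Bf (Fin d) n) := by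
  refine ⟨fun h => b_finite_of_inL h d, fun h => inL_of_hyper hn fun G _ hG => ?_⟩
  exact hyperabelian_of_stops fun x => ⟨d - 1, stops_of_bound hd hb hG x
    (closure_finite_of_b hG x)⟩

end Pool.Agent.W5h57.Bur
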