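import Pool.Agent.W5h57.Bur.Burn

/-!
# The rank of verbal subgroups of free groups and free Burnside groups of composite exponent

If `B_{r,m}` is finite and `B_{r,mq}` is finite, then so is `B_{D,q}`, `D = (r - 1) |B_{r,m}| + 1`.
-/

set_option autoImplicit false

namespace Pool.Agent.W5h57.Bur

open Subgroup

section rep

variable {r m : ℕ}

/-- the subgroup generated by the `m`-th powers -/
abbrev Nm (r m : ℕ) : Subgroup (FreeGroup (Fin r)) :=
  Subgroup.normalClosure (Set.range fun w : FreeGroup (Fin r) => w ^ m)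

/-- the permutation given by the generator `i` on the `ZMod 2`-cover given by `f` -/
def eP (f : Fin r → Bf (Fin r) m → ZMod 2) (i : Fin r) : Equiv.Perm (Bf (Fin r) m × ZMod 2) where
  toFun p := (gf (Fin r) m i * p.1, p.2 + f i p.1)
  invFun p := ((gf (Fin r) m i)⁻¹ * p.1, p.2 - f i ((gf (Fin r) m i)⁻¹ * p.1))
  left_inv p := by ext <;> simp
  right_inv p := by ext <;> simp

/-- the action of the free group on the cover -/
noncomputable def rep (f : Fin r → Bf (Fin r) m → ZMod 2) :
    FreeGroup (Fin r) →* Equiv.Perm (Bf (Fin r) m × ZMod 2) := FreeGroup.lift (eP f)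

theorem rep_of (f : Fin r → Bf (Fin r) m → ZMod 2) (i : Fin r) : rep f (FreeGroup.of i) = eP f i :=
  FreeGroup.lift_apply_of

theorem rep_fst (f : Fin r → Bf (Fin r) m → ZMod 2) (w : FreeGroup (Fin r)) :
    ∀ p, (rep f w p).1 = (w : Bf (Fin r) m) * p.1 := by
  induction w using FreeGroup.induction_on with
  | C1 => intro p; simp
  | of i => intro p; rw [rep_of]; rfl
  | inv_of i _ =>
    intro p
    rw [map_inv, rep_of]
    rfl
  | mul a b ha hb =>
    intro p
    rw [map_mul, Equiv.Perm.mul_apply, ha, hb, QuotientGroup.mk_mul, mul_assoc]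

theorem rep_snd (f : Fin r → Bf (Fin r) m → ZMod 2) (w : FreeGroup (Fin r)) :
    ∀ q a b, (rep f w (q, a + b)).2 = (rep f w (q, a)).2 + b := by
  induction w using FreeGroup.induction_on with
  | C1 => intro q a b; simp
  | of i =>
    intro q a b
    rw [rep_of]
    simp only [eP, Equiv.coe_fn_mk]
    ring
  | inv_of i _ =>
    intro q a b
    rw [map_inv, rep_of]
    change (a + b) - _ = (a - _) + b
    ring
  | mul x y hx hy =>
    intro q a b
    rw [map_mul, Equiv.Perm.mul_apply, Equiv.Perm.mul_apply]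
    have h1 : rep f y (q, a + b) = ((rep f y (q, a)).1, (rep f y (q, a)).2 + b) := by
      refine Prod.ext ?_ (hy q a b)
      rw [rep_fst, rep_fst]
    rw [h1, hx]

theorem rep_zero (f : Fin r → Bf (Fin r) m → ZMod 2) (w : FreeGroup (Fin r)) (q : Bf (Fin r) m)
    (a : ZMod 2) : rep f w (q, a) = ((w : Bf (Fin r) m) * q, (rep f w (q, 0)).2 + a) := by
  refine Prod.ext (rep_fst f w _) ?_
  have := rep_snd f w q 0 a
  rwa [zero_add] at this

/-- the character of the verbal subgroup -/
noncomputable def chi (f : Fin r → Bf (Fin r) m → ZMod 2) : Nm r m →* Multiplicative (ZMod 2) where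
  toFun w := Multiplicative.ofAdd (rep f w.1 (1, 0)).2
  map_one' := by simp
  map_mul' x y := by
    have hy : ((y : FreeGroup (Fin r)) : Bf (Fin r) m) = 1 :=
      (QuotientGroup.eq_one_iff _).2 y.2
    rw [← ofAdd_add]
    congr 1
    rw [Subgroup.coe_mul, map_mul, Equiv.Perm.mul_apply, rep_zero f y.1 1 0, hy, one_mul,
      rep_zero f x.1 1, add_zero]

open Classical in
/-- representatives -/
noncomputable def rp (q : Bf (Fin r) m) : FreeGroup (Fin r) :=
  if q = 1 then 1 else q.out

theorem rp_mk (q : Bf (Fin r) m) : ((rp q : FreeGroup (Fin r)) : Bf (Fin r) m) = q := by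
  unfold rp
  split_ifs with h
  · rw [h]; rfl
  · exact Quotient.out_eq' q

theorem rp_one : rp (1 : Bf (Fin r) m) = 1 := by
  simp [rp]

/-- the potential -/
noncomputable def pot (f : Fin r → Bf (Fin r) m → ZMod 2) (q : Bf (Fin r) m) : ZMod 2 :=
  (rep f (rp q) (1, 0)).2

theorem pot_one (f : Fin r → Bf (Fin r) m → ZMod 2) : pot f 1 = 0 := by
  simp [pot, rp_one]

theorem mem_nm (i : Fin r) (q : Bf (Fin r) m) :
    (rp (gf (Fin r) m i * q))⁻¹ * (FreeGroup.of i * rp q) ∈ Nm r m := by
  rw [← QuotientGroup.eq, rp_mk]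
  rw [QuotientGroup.mk_mul, rp_mk]
  rfl

theorem rep_mul_nm (f : Fin r → Bf (Fin r) m → ZMod 2) (w : FreeGroup (Fin r)) (n : Nm r m) :
    (rep f (w * n.1) (1, 0)).2 = (rep f w (1, 0)).2 + Multiplicative.toAdd (chi f n) := by
  have h4 : ((n : FreeGroup (Fin r)) : Bf (Fin r) m) = 1 := (QuotientGroup.eq_one_iff _).2 n.2
  rw [map_mul, Equiv.Perm.mul_apply, rep_zero f n.1 1 0, h4, mul_one, rep_zero f w 1, add_zero]
  rfl

theorem f_eq (f : Fin r → Bf (Fin r) m → ZMod 2) (i : Fin r) (q : Bf (Fin r) m) :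
    f i q = pot f (gf (Fin r) m i * q) + Multiplicative.toAdd (chi f ⟨_, mem_nm i q⟩) -
      pot f q := by
  have h1 : (rep f (FreeGroup.of i * rp q) (1, 0)).2 = pot f q + f i q := by
    rw [map_mul, Equiv.Perm.mul_apply, rep_zero f (rp q) 1 0, rp_mk, mul_one, rep_of]
    simp [eP, pot]
  have h3 := rep_mul_nm f (rp (gf (Fin r) m i * q)) ⟨_, mem_nm i q⟩
  simp only [mul_inv_cancel_left] at h3
  rw [h1] at h3
  change _ = pot f (gf (Fin r) m i * q) + _ at h3
  rw [← h3]
  ring

/-- The parameters are determined by the character and the potential. -/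
theorem param_injective : Function.Injective
    (fun f : Fin r → Bf (Fin r) m → ZMod 2 =>
      ((chi f, fun q : {q : Bf (Fin r) m // q ≠ 1} => pot f q.1) :
        (Nm r m →* Multiplicative (ZMod 2)) × ({q : Bf (Fin r) m // q ≠ 1} → ZMod 2))) := by
  intro f g h
  simp only [Prod.mk.injEq] at h
  obtain ⟨h1, h2⟩ := h
  have h3 : ∀ q, pot f q = pot g q := by
    intro q
    by_cases hq : q = 1
    · rw [hq, pot_one, pot_one]
    · exact congrFun h2 ⟨q, hq⟩
  funext i q
  rw [f_eq f i q, f_eq g i q, h1, h3, h3]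

open Classical in
/-- The rank of the verbal subgroup (if it is finite). -/
theorem rank_le [Finite (Bf (Fin r) m)] [Finite (IsFreeGroup.Generators (Nm r m))] :
    r * Nat.card (Bf (Fin r) m) + 1 ≤
      Nat.card (IsFreeGroup.Generators (Nm r m)) + Nat.card (Bf (Fin r) m) := by
  have : Fintype (Bf (Fin r) m) := Fintype.ofFinite _
  have : Fintype (IsFreeGroup.Generators (Nm r m)) := Fintype.ofFinite _
  have e := IsFreeGroup.lift (G := Nm r m) (H := Multiplicative (ZMod 2))
  have : Fintype (Nm r m →* Multiplicative (ZMod 2)) := Fintype.ofEquiv _ e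
  have h1 := Fintype.card_le_of_injective _ (param_injective (r := r) (m := m))
  have h2 : Fintype.card (Nm r m →* Multiplicative (ZMod 2)) =
      2 ^ Fintype.card (IsFreeGroup.Generators (Nm r m)) := by
    rw [← Fintype.card_congr e, Fintype.card_fun]
    rfl
  rw [Fintype.card_prod, h2] at h1
  simp only [Fintype.card_fun, Fintype.card_fin, ZMod.card, Fintype.card_subtype_compl,
    Fintype.card_unique] at h1
  rw [← pow_mul, ← pow_add] at h1
  have h3 := (Nat.pow_le_pow_iff_right (by norm_num : 1 < 2)).1 h1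
  have h4 : 1 ≤ Fintype.card (Bf (Fin r) m) := Fintype.card_pos
  rw [Nat.card_eq_fintype_card, Nat.card_eq_fintype_card]
  have h5 : Fintype.card (Bf (Fin r) m) * r = r * Fintype.card (Bf (Fin r) m) := mul_comm _ _
  omega

/-- An injection of `Fin D` into the generators. -/
theorem exists_injection [Finite (Bf (Fin r) m)] {D : ℕ}
    (hD : D + Nat.card (Bf (Fin r) m) ≤ r * Nat.card (Bf (Fin r) m) + 1) :
    ∃ j : Fin D → IsFreeGroup.Generators (Nm r m), Function.Injective j := by
  rcases finite_or_infinite (IsFreeGroup.Generators (Nm r m)) with h | h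
  · have h1 := rank_le (r := r) (m := m)
    have : Fintype (IsFreeGroup.Generators (Nm r m)) := Fintype.ofFinite _
    rw [Nat.card_eq_fintype_card (α := IsFreeGroup.Generators (Nm r m))] at h1
    obtain ⟨e⟩ := Function.Embedding.nonempty_of_card_le
      (α := Fin D) (β := IsFreeGroup.Generators (Nm r m)) (by rw [Fintype.card_fin]; omega)
    exact ⟨e, e.injective⟩
  · exact ⟨fun i => Infinite.natEmbedding _ i.1, fun i k h =>
      Fin.ext ((Infinite.natEmbedding _).injective h)⟩

end rep

open Classical in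
/-- **Composite exponents**: if `B_{r,m}` and `B_{r,mq}` are finite, then `B_{D,q}` is finite for
`D ≤ (r - 1) |B_{r,m}| + 1`. -/
theorem finite_of_comp {r m q D : ℕ} [Finite (Bf (Fin r) m)] (hf : Finite (Bf (Fin r) (m * q)))
    (hD : D + Nat.card (Bf (Fin r) m) ≤ r * Nat.card (Bf (Fin r) m) + 1) :
    Finite (Bf (Fin D) q) := by
  obtain ⟨j, hj⟩ := exists_injection (r := r) (m := m) hD
  -- the surjection onto `B_{D,q}`
  let h : Nm r m →* Bf (Fin D) q := IsFreeGroup.lift fun s =>
    if hs : ∃ i, j i = s then gf (Fin D) q hs.choose else 1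
  have hh : ∀ i, h (IsFreeGroup.of (j i)) = gf (Fin D) q i := by
    intro i
    have h1 : ∃ k, j k = j i := ⟨i, rfl⟩
    have h2 : h1.choose = i := hj h1.choose_spec
    simp only [h, IsFreeGroup.lift_of]
    rw [dif_pos h1, h2]
  have hsurj : h.range = ⊤ := by
    rw [eq_top_iff, ← gf_closure, Subgroup.closure_le]
    rintro _ ⟨i, rfl⟩
    exact ⟨_, hh i⟩
  -- the normal subgroup generated by the `q`-th powers of the elements of `N`
  let V : Subgroup (FreeGroup (Fin r)) := Subgroup.closure {v | ∃ x ∈ Nm r m, v = x ^ q}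
  have hVn : V.Normal := by
    refine ⟨fun v hv g => ?_⟩
    have h1 : V.map (MulAut.conj g).toMonoidHom ≤ V := by
      rw [MonoidHom.map_closure, Subgroup.closure_le]
      rintro _ ⟨_, ⟨x, hx, rfl⟩, rfl⟩
      apply Subgroup.subset_closure
      refine ⟨g * x * g⁻¹, (inferInstance : (Nm r m).Normal).conj_mem x hx g, ?_⟩
      simp [MulAut.conj_apply, conj_pow]
    exact h1 ⟨v, hv, by simp [MulAut.conj_apply]⟩
  have hexp : ∀ x : FreeGroup (Fin r) ⧸ V, x ^ (m * q) = 1 := by
    intro x
    obtain ⟨w, rfl⟩ := QuotientGroup.mk_surjective x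
    rw [← QuotientGroup.mk_pow, QuotientGroup.eq_one_iff, pow_mul]
    exact Subgroup.subset_closure ⟨w ^ m, Subgroup.subset_normalClosure ⟨w, rfl⟩, rfl⟩
  have hfin : Finite (FreeGroup (Fin r) ⧸ V) := by
    obtain ⟨f, hf'⟩ := exists_lift (n := m * q) hexp
      (fun i : Fin r => (QuotientGroup.mk (FreeGroup.of i) : FreeGroup (Fin r) ⧸ V))
    have h1 : f.range = ⊤ := by
      rw [eq_top_iff]
      have h2 : Subgroup.closure (Set.range fun i : Fin r =>
          (QuotientGroup.mk (FreeGroup.of i) : FreeGroup (Fin r) ⧸ V)) = ⊤ := by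
        have h3 : (Set.range fun i : Fin r =>
            (QuotientGroup.mk (FreeGroup.of i) : FreeGroup (Fin r) ⧸ V)) =
            (QuotientGroup.mk' V) '' Set.range FreeGroup.of := by
          rw [← Set.range_comp]
          rfl
        rw [h3, ← MonoidHom.map_closure, FreeGroup.closure_range_of]
        exact Subgroup.map_top_of_surjective _ (QuotientGroup.mk'_surjective _)
      rw [← h2, Subgroup.closure_le]
      rintro _ ⟨i, rfl⟩
      exact ⟨_, hf' i⟩
    exact Finite.of_surjective f (MonoidHom.range_eq_top.1 h1)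
  have hVf : V.FiniteIndex := Subgroup.finiteIndex_of_finite_quotient
  have hle : V.subgroupOf (Nm r m) ≤ h.ker := by
    have h1 : V ≤ h.ker.map (Nm r m).subtype := by
      change Subgroup.closure _ ≤ _
      rw [Subgroup.closure_le]
      rintro _ ⟨x, hx, rfl⟩
      refine ⟨⟨x, hx⟩ ^ q, ?_, rfl⟩
      rw [SetLike.mem_coe, MonoidHom.mem_ker, map_pow, bf_pow]
    intro x hx
    obtain ⟨y, hy, hxy⟩ := h1 (Subgroup.mem_subgroupOf.1 hx)
    have h2 : y = x := Subtype.ext hxy
    rwa [← h2]
  have hVf2 : (V.subgroupOf (Nm r m)).FiniteIndex := inferInstance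
  have hkf : h.ker.FiniteIndex := Subgroup.finiteIndex_of_le hle
  have h5 : Finite (Nm r m ⧸ h.ker) := Subgroup.finite_quotient_of_finiteIndex
  have h6 : Finite h.range := Finite.of_equiv _ (QuotientGroup.quotientKerEquivRange h).toEquiv
  rw [hsurj] at h6
  exact Finite.of_equiv _ Subgroup.topEquiv.toEquiv

end Pool.Agent.W5h57.Bur
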