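import Mathlib

/-!
# Hyperabelian groups, the words `u_j` and nilpotency classes of `d`-generator subgroups
-/

set_option autoImplicit false

open scoped commutatorElement

namespace Pool.Agent.W5h57.Bur

universe u

/-- The words `u_0 = x_0`, `u_(j+1) = [[u_j, x_(j+1)], u_j]`. -/
def uw {G : Type u} [Group G] (x : ℕ → G) : ℕ → G
  | 0 => x 0
  | j + 1 => ⁅⁅uw x j, x (j + 1)⁆, uw x j⁆

/-- Every nontrivial quotient of `G` has a nontrivial abelian normal subgroup. -/
def Hyperabelian (G : Type u) [Group G] : Prop :=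
  ∀ (N : Subgroup G) [N.Normal], N ≠ ⊤ →
    ∃ A : Subgroup (G ⧸ N), A.Normal ∧ A ≠ ⊥ ∧ ∀ a ∈ A, ∀ b ∈ A, a * b = b * a

/-- Locally finite. -/
def LFin (G : Type u) [Group G] : Prop := ∀ S : Set G, S.Finite → Finite (Subgroup.closure S)

section words

variable {G : Type u} [Group G] {H : Type*} [Group H]

theorem uw_map (f : G →* H) (x : ℕ → G) (j : ℕ) : f (uw x j) = uw (fun i => f (x i)) j := by
  induction j with
  | zero => rfl
  | succ j ih => simp only [uw, map_commutatorElement, ih]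

theorem uw_congr {x y : ℕ → G} {j : ℕ} (h : ∀ i ≤ j, x i = y i) : uw x j = uw y j := by
  induction j with
  | zero => exact h 0 le_rfl
  | succ j ih =>
    simp only [uw, ih fun i hi => h i (by omega), h (j + 1) le_rfl]

theorem uw_one {x : ℕ → G} {j k : ℕ} (h : uw x j = 1) (hk : j ≤ k) : uw x k = 1 := by
  induction k with
  | zero =>
    obtain rfl : j = 0 := by omega
    exact h
  | succ k ih =>
    rcases Nat.lt_or_ge j (k + 1) with h1 | h1
    · have h2 := ih (by omega)
      simp only [uw, h2]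
      simp
    · obtain rfl : j = k + 1 := by omega
      exact h

theorem uw_mem {x : ℕ → G} {j : ℕ} {S : Subgroup G} (h : ∀ i ≤ j, x i ∈ S) : uw x j ∈ S := by
  induction j with
  | zero => exact h 0 le_rfl
  | succ j ih =>
    have h1 := ih fun i hi => h i (by omega)
    have h2 := h (j + 1) le_rfl
    simp only [uw, commutatorElement_def]
    exact S.mul_mem (S.mul_mem (S.mul_mem (S.mul_mem (S.mul_mem (S.mul_mem h1 h2)
      (S.inv_mem h1)) (S.inv_mem h2)) h1) (S.inv_mem (S.mul_mem (S.mul_mem (S.mul_mem h1 h2)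
      (S.inv_mem h1)) (S.inv_mem h2)))) (S.inv_mem h1)

theorem three_rel (M : Subgroup G) [M.Normal] (H1 H2 H3 : Subgroup G) (h1 : ⁅⁅H2, H3⁆, H1⁆ ≤ M)
    (h2 : ⁅⁅H3, H1⁆, H2⁆ ≤ M) : ⁅⁅H1, H2⁆, H3⁆ ≤ M := by
  have key : ∀ X : Subgroup G, X ≤ M ↔ X.map (QuotientGroup.mk' M) = ⊥ := by
    intro X
    rw [Subgroup.map_eq_bot_iff, QuotientGroup.ker_mk']
  rw [key, Subgroup.map_commutator, Subgroup.map_commutator] at h1 h2 ⊢
  exact Subgroup.commutator_commutator_eq_bot_of_rotate h1 h2

instance lcs_normal (N : Subgroup G) [N.Normal] (i : ℕ) : (N.lowerCentralSeries i).Normal := by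
  induction i with
  | zero => simpa
  | succ i ih =>
    rw [Subgroup.lowerCentralSeries_succ]
    infer_instance

/-- `[γ_i N, γ_j N] ≤ γ_(i+j) N` for a normal subgroup `N`. -/
theorem lcs_comm (N : Subgroup G) [N.Normal] (j : ℕ) : ∀ i,
    ⁅N.lowerCentralSeries i, N.lowerCentralSeries j⁆ ≤ N.lowerCentralSeries (i + j + 1) := by
  induction j with
  | zero => exact fun i => le_refl _
  | succ j ih =>
    intro i
    rw [Subgroup.commutator_comm]
    change ⁅⁅N.lowerCentralSeries j, N⁆, N.lowerCentralSeries i⁆ ≤ _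
    apply three_rel
    · have h1 : ⁅N, N.lowerCentralSeries i⁆ = N.lowerCentralSeries (i + 1) :=
        Subgroup.commutator_comm _ _
      rw [h1]
      have := ih (i + 1)
      rwa [show i + 1 + j + 1 = i + (j + 1) + 1 by ring] at this
    · calc ⁅⁅N.lowerCentralSeries i, N.lowerCentralSeries j⁆, N⁆
          ≤ ⁅N.lowerCentralSeries (i + j + 1), N⁆ := Subgroup.commutator_mono (ih i) le_rfl
        _ = N.lowerCentralSeries (i + (j + 1) + 1) := by
            rw [show i + (j + 1) + 1 = (i + j + 1) + 1 by ring]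
            rfl

/-- `u_j` has weight `2 ^ (j + 1) - 1`. -/
theorem uw_lcs (x : ℕ → G) (j : ℕ) :
    uw x j ∈ (⊤ : Subgroup G).lowerCentralSeries (2 ^ (j + 1) - 2) := by
  induction j with
  | zero => exact Subgroup.mem_top _
  | succ j ih =>
    have h1 : ⁅uw x j, x (j + 1)⁆ ∈ (⊤ : Subgroup G).lowerCentralSeries (2 ^ (j + 1) - 2 + 1) :=
      Subgroup.commutator_mem_commutator ih (Subgroup.mem_top _)
    have h2 := lcs_comm ⊤ _ _ (Subgroup.commutator_mem_commutator h1 ih)
    have h3 : 2 ≤ 2 ^ (j + 1) := by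
      calc 2 = 2 ^ 1 := rfl
        _ ≤ _ := Nat.pow_le_pow_right (by norm_num) (by omega)
    have h4 : 2 ^ (j + 1 + 1) = 2 * 2 ^ (j + 1) := by ring
    rw [show 2 ^ (j + 1 + 1) - 2 = 2 ^ (j + 1) - 2 + 1 + (2 ^ (j + 1) - 2) + 1 by omega]
    exact h2

/-- `u_j` has weight `2 ^ j` in the normal closure of `x_0`. -/
theorem uw_ncl (x : ℕ → G) (j : ℕ) :
    uw x j ∈ (Subgroup.normalClosure {x 0}).lowerCentralSeries (2 ^ j - 1) := by
  induction j with
  | zero => exact Subgroup.subset_normalClosure rfl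
  | succ j ih =>
    have h1 : ⁅uw x j, x (j + 1)⁆ ∈
        (Subgroup.normalClosure {x 0}).lowerCentralSeries (2 ^ j - 1) := by
      rw [commutatorElement_def, mul_assoc, mul_assoc]
      refine Subgroup.mul_mem _ ih ?_
      rw [← mul_assoc]
      exact (lcs_normal _ _).conj_mem _ (Subgroup.inv_mem _ ih) _
    have h2 := lcs_comm _ _ _ (Subgroup.commutator_mem_commutator h1 ih)
    have h3 : 1 ≤ 2 ^ j := Nat.one_le_two_pow
    have h4 : 2 ^ (j + 1) = 2 * 2 ^ j := by ring
    rw [show 2 ^ (j + 1) - 1 = 2 ^ j - 1 + (2 ^ j - 1) + 1 by omega]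
    exact h2

end words

section hyper

variable {G : Type u} [Group G]

/-- If `[[v, y], v] = 1` for all `y`, the conjugates of `v` commute. -/
theorem abelian_ncl {v : G} (h : ∀ y : G, ⁅⁅v, y⁆, v⁆ = 1) :
    ∀ a ∈ Subgroup.normalClosure {v}, ∀ b ∈ Subgroup.normalClosure {v}, a * b = b * a := by
  have h1 : ∀ y, Commute (y * v * y⁻¹) v := by
    intro y
    have h2 : Commute ⁅v, y⁆ v := commutatorElement_eq_one_iff_commute.1 (h y)
    have h3 : y * v * y⁻¹ = (v⁻¹ * ⁅v, y⁆)⁻¹ := by
      rw [commutatorElement_def]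
      group
    rw [h3]
    exact ((Commute.refl v).inv_left.mul_left h2).inv_left
  have h2 : ∀ y z, Commute (y * v * y⁻¹) (z * v * z⁻¹) := by
    intro y z
    have h3 := h1 (z⁻¹ * y)
    have h4 : y * v * y⁻¹ = z * (z⁻¹ * y * v * (z⁻¹ * y)⁻¹) * z⁻¹ := by group
    rw [h4]
    exact (Commute.conj_iff z).2 h3
  have h3 : ∀ a ∈ Subgroup.normalClosure {v}, ∀ z, Commute a (z * v * z⁻¹) := by
    intro a ha z
    have hle : Subgroup.normalClosure {v} ≤ Subgroup.centralizer {z * v * z⁻¹} := by
      unfold Subgroup.normalClosure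
      rw [Subgroup.closure_le]
      intro b hb
      obtain ⟨c, hc, hcb⟩ := Group.mem_conjugatesOfSet_iff.1 hb
      rw [Set.mem_singleton_iff] at hc
      subst hc
      obtain ⟨y, rfl⟩ := isConj_iff.1 hcb
      rw [SetLike.mem_coe, Subgroup.mem_centralizer_singleton_iff]
      exact (h2 y z).eq
    exact (Subgroup.mem_centralizer_singleton_iff.1 (hle ha))
  intro a ha b hb
  have hle : Subgroup.normalClosure {v} ≤ Subgroup.centralizer {a} := by
    conv_lhs => unfold Subgroup.normalClosure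
    rw [Subgroup.closure_le]
    intro b hb
    obtain ⟨c, hc, hcb⟩ := Group.mem_conjugatesOfSet_iff.1 hb
    rw [Set.mem_singleton_iff] at hc
    subst hc
    obtain ⟨y, rfl⟩ := isConj_iff.1 hcb
    rw [SetLike.mem_coe, Subgroup.mem_centralizer_singleton_iff]
    exact (h3 a ha y).eq.symm
  exact (Subgroup.mem_centralizer_singleton_iff.1 (hle hb)).symm

/-- A group is hyperabelian if for every sequence `x` some `u_j` is trivial. -/
theorem hyperabelian_of_stops (h : ∀ x : ℕ → G, ∃ j, uw x j = 1) : Hyperabelian G := by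
  intro N _ hN
  by_contra hcon
  push Not at hcon
  have hex : ∃ g : G, g ∉ N := by
    by_contra hc
    push Not at hc
    exact hN ((Subgroup.eq_top_iff' N).2 hc)
  obtain ⟨g, hg⟩ := hex
  have hstep : ∀ v : {v : G ⧸ N // v ≠ 1}, ∃ y : G ⧸ N, ⁅⁅v.1, y⁆, v.1⁆ ≠ 1 := by
    rintro ⟨v, hv⟩
    by_contra hc
    push Not at hc
    obtain ⟨a, ha, b, hb, hab⟩ := hcon (Subgroup.normalClosure {v}) inferInstance (by
      intro h0
      apply hv
      rw [← Subgroup.mem_bot, ← h0]
      exact Subgroup.subset_normalClosure rfl)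
    exact hab (abelian_ncl hc a ha b hb)
  choose Y hY using hstep
  let v : ℕ → {v : G ⧸ N // v ≠ 1} := fun j => Nat.rec ⟨(g : G ⧸ N), by
    rwa [Ne, QuotientGroup.eq_one_iff]⟩ (fun _ w => ⟨⁅⁅w.1, Y w⁆, w.1⁆, hY w⟩) j
  let x : ℕ → G ⧸ N := fun j => Nat.casesOn j (g : G ⧸ N) (fun i => Y (v i))
  have hx : ∀ j, uw x j = (v j).1 := by
    intro j
    induction j with
    | zero => rfl
    | succ j ih =>
      simp only [uw, ih]
      rfl
  choose X hX using fun j => QuotientGroup.mk_surjective (x j)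
  obtain ⟨j, hj⟩ := h X
  have h1 := uw_map (QuotientGroup.mk' N) X j
  rw [hj, map_one] at h1
  have h2 : (fun i => QuotientGroup.mk' N (X i)) = x := funext fun i => hX i
  rw [h2, hx] at h1
  exact (v j).2 h1.symm

/-- In a hyperabelian group, for every sequence `x` some `u_j` is trivial. -/
theorem stops_of_hyperabelian (h : Hyperabelian G) (x : ℕ → G) : ∃ j, uw x j = 1 := by
  by_contra hcon
  push Not at hcon
  obtain ⟨M, hM⟩ := zorn_le_nonempty₀ {N : Subgroup G | N.Normal ∧ ∀ j, uw x j ∉ N} (by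
    intro c hc hch N hN
    refine ⟨sSup c, ⟨?_, ?_⟩, fun N hN => le_sSup hN⟩
    · refine ⟨fun a ha g => ?_⟩
      rw [Subgroup.mem_sSup_of_directedOn ⟨N, hN⟩ hch.directedOn] at ha ⊢
      obtain ⟨K, hK, haK⟩ := ha
      exact ⟨K, hK, (hc hK).1.conj_mem a haK g⟩
    · intro j hj
      rw [Subgroup.mem_sSup_of_directedOn ⟨N, hN⟩ hch.directedOn] at hj
      obtain ⟨K, hK, hjK⟩ := hj
      exact (hc hK).2 j hjK) ⊥ ⟨inferInstance, fun j hj => hcon j (Subgroup.mem_bot.1 hj)⟩
  have hMn : M.Normal := hM.2.prop.1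
  have hMt : M ≠ ⊤ := by
    rintro rfl
    exact hM.2.prop.2 0 (Subgroup.mem_top _)
  obtain ⟨A, hAn, hA1, hA⟩ := h M hMt
  have h1 : M ≤ A.comap (QuotientGroup.mk' M) := by
    intro m hm
    rw [Subgroup.mem_comap, QuotientGroup.mk'_apply, (QuotientGroup.eq_one_iff m).2 hm]
    exact A.one_mem
  have h2 : ¬ A.comap (QuotientGroup.mk' M) ≤ M := by
    intro h3
    apply hA1
    rw [eq_bot_iff]
    intro a ha
    obtain ⟨g, rfl⟩ := QuotientGroup.mk'_surjective M a
    rw [Subgroup.mem_bot, QuotientGroup.mk'_apply, QuotientGroup.eq_one_iff]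
    exact h3 ha
  have h3 : ¬ ∀ j, uw x j ∉ A.comap (QuotientGroup.mk' M) := fun h4 =>
    h2 (hM.2.le_of_ge ⟨hAn.comap _, h4⟩ h1)
  push Not at h3
  obtain ⟨j, hj⟩ := h3
  apply hM.2.prop.2 (j + 1)
  rw [← QuotientGroup.eq_one_iff]
  have h4 : (QuotientGroup.mk' M) (uw x (j + 1)) = 1 := by
    simp only [uw, map_commutatorElement]
    rw [commutatorElement_eq_one_iff_mul_comm]
    refine hA _ ?_ _ hj
    rw [commutatorElement_def, mul_assoc, mul_assoc]
    refine A.mul_mem hj ?_
    rw [← mul_assoc]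
    exact hAn.conj_mem _ (A.inv_mem hj) _
  exact h4

/-- Schmidt's theorem: extensions. -/
theorem lfin_ext (N : Subgroup G) [N.Normal] (hN : LFin N) (hQ : LFin (G ⧸ N)) : LFin G := by
  intro S hS
  classical
  obtain ⟨H, hH⟩ : ∃ H : Subgroup G, H = Subgroup.closure S := ⟨_, rfl⟩
  rw [← hH]
  obtain ⟨f, hf⟩ : ∃ f : H →* G ⧸ N, f = (QuotientGroup.mk' N).comp H.subtype := ⟨_, rfl⟩
  have h1 : Finite f.range := by
    have h0 := hQ ((QuotientGroup.mk' N) '' S) (hS.image _)
    have e : f.range = Subgroup.closure ((QuotientGroup.mk' N) '' S) := by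
      rw [hf, MonoidHom.range_comp, Subgroup.range_subtype, hH, MonoidHom.map_closure]
    rw [e]
    exact h0
  have h2 : f.ker.FiniteIndex := Subgroup.finiteIndex_ker f
  have h3 : Group.FG H := by
    rw [Group.fg_iff_subgroup_fg]
    exact ⟨hS.toFinset, by rw [hS.coe_toFinset]; exact hH.symm⟩
  have h4 : Group.FG f.ker := Subgroup.fg_of_index_ne_zero f.ker
  have hfa : ∀ x : H, f x = ((x : G) : G ⧸ N) := by
    intro x
    rw [hf]
    rfl
  have hmem : ∀ k : f.ker, ((k : H) : G) ∈ N := by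
    intro k
    have h5 : f (k : H) = 1 := k.2
    rw [hfa (k : H)] at h5
    exact (QuotientGroup.eq_one_iff ((k : H) : G)).1 h5
  obtain ⟨g, hg⟩ : ∃ g : f.ker →* N, ∀ k, ((g k : N) : G) = ((k : H) : G) :=
    ⟨{ toFun := fun k => ⟨((k : H) : G), hmem k⟩
       map_one' := rfl
       map_mul' := fun _ _ => rfl }, fun _ => rfl⟩
  have hginj : Function.Injective g := by
    intro x y hxy
    have h6 : ((g x : N) : G) = ((g y : N) : G) := by rw [hxy]
    rw [hg, hg] at h6
    exact Subtype.ext (Subtype.ext h6)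
  have h8 : (⊤ : Subgroup f.ker).FG := h4.out
  obtain ⟨T, hT⟩ := h8
  have h9 : Finite g.range := by
    rw [MonoidHom.range_eq_map, ← hT, MonoidHom.map_closure]
    exact hN _ (T.finite_toSet.image g)
  have h10 : Finite f.ker := by
    refine Finite.of_injective (fun k => (⟨g k, ⟨k, rfl⟩⟩ : g.range)) fun x y hxy => ?_
    exact hginj (congrArg Subtype.val hxy)
  have h11 : Finite (H ⧸ f.ker) := Subgroup.finite_quotient_of_finiteIndex
  exact Finite.of_equiv _ (Subgroup.groupEquivQuotientProdSubgroup (s := f.ker)).symm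

/-- A subgroup all of whose finitely generated subgroups are finite. -/
def LFS (A : Subgroup G) : Prop := ∀ S : Set G, S.Finite → S ⊆ A → Finite (Subgroup.closure S)

theorem lfin_of_lfs {A : Subgroup G} (h : LFS A) : LFin A := by
  intro S hS
  have h1 := h (A.subtype '' S) (hS.image _) (by
    rintro _ ⟨a, -, rfl⟩
    exact a.2)
  rw [← MonoidHom.map_closure] at h1
  have h2 : (A.subtype '' (Subgroup.closure S : Set A)).Finite := by
    rw [← Subgroup.coe_map]
    exact Set.toFinite _
  exact (Set.Finite.of_finite_image h2 A.subtype_injective.injOn).to_subtype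

theorem lfs_of_lfin {A : Subgroup G} (h : LFin A) : LFS A := by
  intro S hS hSA
  have h1 := h (A.subtype ⁻¹' S) (hS.preimage A.subtype_injective.injOn)
  have h2 : Subgroup.closure S = (Subgroup.closure (A.subtype ⁻¹' S)).map A.subtype := by
    rw [MonoidHom.map_closure]
    congr 1
    ext s
    constructor
    · intro hs
      exact ⟨⟨s, hSA hs⟩, hs, rfl⟩
    · rintro ⟨a, ha, rfl⟩
      exact ha
  rw [h2]
  have h3 : ((Subgroup.closure (A.subtype ⁻¹' S)).map A.subtype : Set G).Finite := by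
    rw [Subgroup.coe_map]
    exact Set.Finite.image _ (Set.toFinite _)
  exact h3.to_subtype

/-- Periodic abelian groups are locally finite. -/
theorem lfin_abelian (hc : ∀ a b : G, a * b = b * a) (ht : ∀ g : G, IsOfFinOrder g) : LFin G := by
  intro S hS
  let _ : CommGroup G := { (inferInstance : Group G) with mul_comm := hc }
  have h1 : Group.FG (Subgroup.closure S) := by
    rw [Group.fg_iff_subgroup_fg]
    exact ⟨hS.toFinset, by rw [hS.coe_toFinset]⟩
  have h2 : IsMulTorsion (Subgroup.closure S) := fun g => by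
    have h3 := ht (g : G)
    rwa [Submonoid.isOfFinOrder_coe] at h3
  exact CommGroup.finite_of_fg_isMulTorsion _ h2

/-- A periodic hyperabelian group is locally finite. -/
theorem lfin_of_hyperabelian (h : Hyperabelian G) (ht : ∀ g : G, IsOfFinOrder g) : LFin G := by
  obtain ⟨M, hM⟩ := zorn_le_nonempty₀ {N : Subgroup G | N.Normal ∧ LFS N} (by
    intro c hc hch N hN
    refine ⟨sSup c, ⟨?_, ?_⟩, fun N hN => le_sSup hN⟩
    · refine ⟨fun a ha g => ?_⟩
      rw [Subgroup.mem_sSup_of_directedOn ⟨N, hN⟩ hch.directedOn] at ha ⊢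
      obtain ⟨K, hK, haK⟩ := ha
      exact ⟨K, hK, (hc hK).1.conj_mem a haK g⟩
    · intro S hS hSc
      have h1 : ∀ s ∈ S, ∃ K ∈ c, s ∈ K := fun s hs =>
        (Subgroup.mem_sSup_of_directedOn ⟨N, hN⟩ hch.directedOn).1 (hSc hs)
      have h2 : ∃ K ∈ c, S ⊆ K := by
        clear hSc
        induction S, hS using Set.Finite.induction_on with
        | empty => exact ⟨N, hN, Set.empty_subset _⟩
        | @insert a S ha hS ih =>
          obtain ⟨K, hK, hSK⟩ := ih fun s hs => h1 s (Set.mem_insert_of_mem _ hs)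
          obtain ⟨L, hL, haL⟩ := h1 a (Set.mem_insert _ _)
          rcases hch.total hK hL with h3 | h3
          · exact ⟨L, hL, Set.insert_subset haL (hSK.trans h3)⟩
          · exact ⟨K, hK, Set.insert_subset (h3 haL) hSK⟩
      obtain ⟨K, hK, hSK⟩ := h2
      exact (hc hK).2 S hS hSK) ⊥ ⟨inferInstance, by
        intro S hS hS1
        have h1 : Subgroup.closure S = ⊥ := by
          rw [eq_bot_iff, Subgroup.closure_le]
          exact hS1
        rw [h1]
        infer_instance⟩
  have hMn : M.Normal := hM.2.prop.1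
  by_cases hMt : M = ⊤
  · subst hMt
    intro S hS
    exact hM.2.prop.2 S hS (Set.subset_univ _)
  obtain ⟨A, hAn, hA1, hA⟩ := h M hMt
  exfalso
  apply hA1
  have h1 : M ≤ A.comap (QuotientGroup.mk' M) := by
    intro m hm
    rw [Subgroup.mem_comap, QuotientGroup.mk'_apply, (QuotientGroup.eq_one_iff m).2 hm]
    exact A.one_mem
  have h2 : LFS (A.comap (QuotientGroup.mk' M)) := by
    apply lfs_of_lfin
    let B := A.comap (QuotientGroup.mk' M)
    have hn : (M.subgroupOf B).Normal := inferInstance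
    refine lfin_ext (M.subgroupOf B) ?_ ?_
    · apply lfin_of_lfs
      intro S hS hSM
      have h3 := hM.2.prop.2 (B.subtype '' S) (hS.image _) (by
        rintro _ ⟨s, hs, rfl⟩
        exact hSM hs)
      rw [← MonoidHom.map_closure] at h3
      have h4 : (B.subtype '' (Subgroup.closure S : Set B)).Finite := by
        rw [← Subgroup.coe_map]
        exact Set.toFinite _
      exact (Set.Finite.of_finite_image h4 B.subtype_injective.injOn).to_subtype
    · apply lfin_abelian
      · intro a b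
        obtain ⟨a, rfl⟩ := QuotientGroup.mk'_surjective _ a
        obtain ⟨b, rfl⟩ := QuotientGroup.mk'_surjective _ b
        rw [← map_mul, ← map_mul, QuotientGroup.mk'_apply, QuotientGroup.mk'_apply,
          QuotientGroup.eq, Subgroup.mem_subgroupOf]
        have h5 := hA _ a.2 _ b.2
        rw [← map_mul, ← map_mul, QuotientGroup.mk'_apply, QuotientGroup.mk'_apply,
          QuotientGroup.eq] at h5
        exact h5
      · intro a
        obtain ⟨a, rfl⟩ := QuotientGroup.mk'_surjective _ a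
        apply MonoidHom.isOfFinOrder
        have h5 := ht (a : G)
        rwa [Submonoid.isOfFinOrder_coe] at h5
  have h3 := hM.2.le_of_ge ⟨hAn.comap _, h2⟩ h1
  rw [eq_bot_iff]
  intro a ha
  obtain ⟨g, rfl⟩ := QuotientGroup.mk'_surjective M a
  rw [Subgroup.mem_bot, QuotientGroup.mk'_apply, QuotientGroup.eq_one_iff]
  exact h3 ha

end hyper

end Pool.Agent.W5h57.Bur
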